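import Pool.Agent.W181.RT.Props

/-!
# RT-SP: the abstract spanning lemma
-/
set_option autoImplicit false
set_option linter.unusedSectionVars false

namespace Pool.Agent.W202.RT.SP

open Pool.Agent.W181.RT

section basic
variable {B : Type} [CommRing B] [Algebra ℚ B]

/-- the span of products -/
def SpS (x y : ℕ → B) (p q a b : ℕ) : Submodule ℚ B :=
  Submodule.span ℚ {w : B | ∃ lam mu : Multiset ℕ, Multiset.card lam = p ∧ Multiset.card mu = q ∧
    (∀ t ∈ lam, t < a) ∧ (∀ t ∈ mu, t < b) ∧ w = (lam.map x).prod * (mu.map y).prod}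

/-- the ideal of tails -/
def GI (x y : ℕ → B) (a b : ℕ) : Ideal B :=
  Ideal.span ({w : B | ∃ l : ℕ, a ≤ l ∧ w = x l} ∪ {w : B | ∃ l : ℕ, b ≤ l ∧ w = y l})

theorem SpS_mono {x y : ℕ → B} {p q a b a' b' : ℕ} (ha : a ≤ a') (hb : b ≤ b') :
    SpS x y p q a b ≤ SpS x y p q a' b' := by
  apply Submodule.span_mono
  rintro w ⟨lam, mu, h1, h2, h3, h4, h5⟩
  exact ⟨lam, mu, h1, h2, fun t ht => (h3 t ht).trans_le ha, fun t ht => (h4 t ht).trans_le hb, h5⟩

theorem x_mul_SpS {x y : ℕ → B} {p q a b t : ℕ} (ht : t < a) {w : B} (hw : w ∈ SpS x y p q a b) :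
    x t * w ∈ SpS x y (p + 1) q a b := by
  unfold SpS at hw
  induction hw using Submodule.span_induction with
  | mem w hw =>
    obtain ⟨lam, mu, h1, h2, h3, h4, rfl⟩ := hw
    apply Submodule.subset_span
    refine ⟨t ::ₘ lam, mu, by rw [Multiset.card_cons, h1], h2, ?_, h4, ?_⟩
    · intro s hs
      rcases Multiset.mem_cons.1 hs with h | h
      · rw [h]; exact ht
      · exact h3 s h
    · rw [Multiset.map_cons, Multiset.prod_cons]
      ring
  | zero => rw [mul_zero]; exact Submodule.zero_mem _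
  | add w v _ _ hw hv => rw [mul_add]; exact Submodule.add_mem _ hw hv
  | smul c w _ hw => rw [mul_smul_comm]; exact Submodule.smul_mem _ _ hw

theorem y_mul_SpS {x y : ℕ → B} {p q a b t : ℕ} (ht : t < b) {w : B} (hw : w ∈ SpS x y p q a b) :
    y t * w ∈ SpS x y p (q + 1) a b := by
  unfold SpS at hw
  induction hw using Submodule.span_induction with
  | mem w hw =>
    obtain ⟨lam, mu, h1, h2, h3, h4, rfl⟩ := hw
    apply Submodule.subset_span
    refine ⟨lam, t ::ₘ mu, h1, by rw [Multiset.card_cons, h2], h3, ?_, ?_⟩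
    · intro s hs
      rcases Multiset.mem_cons.1 hs with h | h
      · rw [h]; exact ht
      · exact h4 s h
    · rw [Multiset.map_cons, Multiset.prod_cons]
      ring
  | zero => rw [mul_zero]; exact Submodule.zero_mem _
  | add w v _ _ hw hv => rw [mul_add]; exact Submodule.add_mem _ hw hv
  | smul c w _ hw => rw [mul_smul_comm]; exact Submodule.smul_mem _ _ hw

theorem x_mem_GI {x y : ℕ → B} {a b l : ℕ} (h : a ≤ l) : x l ∈ GI x y a b :=
  Ideal.subset_span (Or.inl ⟨l, h, rfl⟩)

theorem y_mem_GI {x y : ℕ → B} {a b l : ℕ} (h : b ≤ l) : y l ∈ GI x y a b :=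
  Ideal.subset_span (Or.inr ⟨l, h, rfl⟩)

theorem GI_le_b (x y : ℕ → B) (a b : ℕ) : GI x y a b ≤ GI x y a (b + 1) ⊔ Ideal.span {y b} := by
  unfold GI
  rw [Ideal.span_le]
  rintro w (⟨l, hl, rfl⟩ | ⟨l, hl, rfl⟩)
  · exact Ideal.mem_sup_left (x_mem_GI hl)
  · rcases hl.eq_or_lt with h | h
    · subst h
      exact Ideal.mem_sup_right (Ideal.subset_span rfl)
    · exact Ideal.mem_sup_left (y_mem_GI h)

theorem GI_le_a (x y : ℕ → B) (a b : ℕ) : GI x y a b ≤ GI x y (a + 1) b ⊔ Ideal.span {x a} := by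
  unfold GI
  rw [Ideal.span_le]
  rintro w (⟨l, hl, rfl⟩ | ⟨l, hl, rfl⟩)
  · rcases hl.eq_or_lt with h | h
    · subst h
      exact Ideal.mem_sup_right (Ideal.subset_span rfl)
    · exact Ideal.mem_sup_left (x_mem_GI h)
  · exact Ideal.mem_sup_left (y_mem_GI hl)

/-- the first order equation at the top degree -/
theorem top_eq {k : ℕ} {d u z : ℕ → B} (hd : ∀ c, k + 1 < c → d c = 0) (hu : ∀ c, k < c → u c = 0)
    (h : ∀ n, ∑ p ∈ Finset.HasAntidiagonal.antidiagonal n, d p.1 * (z (p.2 + 1) * ((p.2 : B) + 1))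
      = ∑ p ∈ Finset.HasAntidiagonal.antidiagonal n, u p.1 * z p.2) (J : Ideal B) (a : ℕ)
    (hJ : ∀ l, a < l → z l ∈ J) : (u k - a * d (k + 1)) * z a ∈ J := by
  have h1 := h (a + k)
  have e1 : (∑ p ∈ Finset.HasAntidiagonal.antidiagonal (a + k), d p.1 * (z (p.2 + 1) * ((p.2 : B) + 1)))
      - a * d (k + 1) * z a ∈ J := by
    rcases Nat.eq_zero_or_pos a with ha | ha
    · subst ha
      rw [Nat.cast_zero, zero_mul, zero_mul, sub_zero]
      apply Ideal.sum_mem
      intro p hp
      exact J.mul_mem_left _ (J.mul_mem_right _ (hJ _ (Nat.succ_pos _)))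
    · obtain ⟨a', rfl⟩ := Nat.exists_eq_succ_of_ne_zero ha.ne'
      have hmem : ((k + 1, a') : ℕ × ℕ) ∈ Finset.HasAntidiagonal.antidiagonal (a'.succ + k) := by
        rw [Finset.HasAntidiagonal.mem_antidiagonal]
        show k + 1 + a' = a' + 1 + k
        omega
      rw [← Finset.add_sum_erase _ _ hmem]
      have e2 : d ((k + 1, a') : ℕ × ℕ).1 * (z (((k + 1, a') : ℕ × ℕ).2 + 1)
          * ((((k + 1, a') : ℕ × ℕ).2 : B) + 1)) - (a'.succ : B) * d (k + 1) * z a'.succ = 0 := by
        simp only [Nat.succ_eq_add_one]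
        push_cast
        ring
      have e3 : ∀ r s t : B, r - t = 0 → s ∈ J → r + s - t ∈ J := by
        intro r s t hr hs
        have : r + s - t = s := by linear_combination hr
        rw [this]; exact hs
      apply e3 _ _ _ e2
      apply Ideal.sum_mem
      intro p hp
      rw [Finset.mem_erase, Finset.HasAntidiagonal.mem_antidiagonal] at hp
      obtain ⟨hp1, hp2⟩ := hp
      rcases lt_trichotomy p.1 (k + 1) with h3 | h3 | h3
      · exact J.mul_mem_left _ (J.mul_mem_right _ (hJ _ (by omega)))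
      · exact absurd (Prod.ext h3 (show p.2 = a' by omega)) hp1
      · rw [hd _ h3, zero_mul]; exact J.zero_mem
  have e2 : (∑ p ∈ Finset.HasAntidiagonal.antidiagonal (a + k), u p.1 * z p.2) - u k * z a ∈ J := by
    have hmem : ((k, a) : ℕ × ℕ) ∈ Finset.HasAntidiagonal.antidiagonal (a + k) := by
      rw [Finset.HasAntidiagonal.mem_antidiagonal]
      show k + a = a + k
      omega
    rw [← Finset.add_sum_erase _ _ hmem, add_sub_cancel_left]
    apply Ideal.sum_mem
    intro p hp
    rw [Finset.mem_erase, Finset.HasAntidiagonal.mem_antidiagonal] at hp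
    obtain ⟨hp1, hp2⟩ := hp
    rcases lt_trichotomy p.1 k with h3 | h3 | h3
    · exact J.mul_mem_left _ (hJ _ (by omega))
    · exact absurd (Prod.ext h3 (show p.2 = a by omega)) hp1
    · rw [hu _ h3, zero_mul]; exact J.zero_mem
  have e3 := J.sub_mem e1 e2
  rw [h1] at e3
  have e4 : (u k - a * d (k + 1)) * z a
      = (∑ p ∈ Finset.HasAntidiagonal.antidiagonal (a + k), u p.1 * z p.2) - a * d (k + 1) * z a
        - ((∑ p ∈ Finset.HasAntidiagonal.antidiagonal (a + k), u p.1 * z p.2) - u k * z a) := by ring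
  rw [e4]
  exact e3

end basic

/-- the hypotheses on the coefficients -/
structure Sys (i : ℕ) {B : Type} [CommRing B] [Algebra ℚ B] (d m x y : ℕ → B) : Prop where
  d0 : d 0 = 1
  x0 : x 0 = 1
  y0 : y 0 = 1
  dv : ∀ c, i < c → d c = 0
  mv : ∀ c, i ≤ c → m c = 0
  hx : ∀ n, ∑ p ∈ Finset.HasAntidiagonal.antidiagonal n, d p.1 * (x (p.2 + 1) * ((p.2 : B) + 1))
      = ∑ p ∈ Finset.HasAntidiagonal.antidiagonal n, m p.1 * x p.2
  hy : ∀ n, ∑ p ∈ Finset.HasAntidiagonal.antidiagonal n, d p.1 * (y (p.2 + 1) * ((p.2 : B) + 1))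
      = ∑ p ∈ Finset.HasAntidiagonal.antidiagonal n, (-(2 * (d (p.1 + 1) * ((p.1 : B) + 1)) + m p.1)) * y p.2
  gen : Algebra.adjoin ℚ (Set.range d ∪ Set.range m) = ⊤

theorem Sys.quot {k : ℕ} {B : Type} [CommRing B] [Algebra ℚ B] {d m x y : ℕ → B}
    (h : Sys (k + 1) d m x y) (J : Ideal B) (h1 : d (k + 1) ∈ J) (h2 : m k ∈ J) :
    Sys k (fun c => Ideal.Quotient.mk J (d c)) (fun c => Ideal.Quotient.mk J (m c))
      (fun c => Ideal.Quotient.mk J (x c)) (fun c => Ideal.Quotient.mk J (y c)) := by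
  refine ⟨by rw [h.d0, map_one], by rw [h.x0, map_one], by rw [h.y0, map_one], ?_, ?_, ?_, ?_, ?_⟩
  · intro c hc
    rcases (Nat.succ_le_of_lt hc).eq_or_lt with h3 | h3
    · rw [← h3]; exact Ideal.Quotient.eq_zero_iff_mem.2 h1
    · rw [h.dv c h3, map_zero]
  · intro c hc
    rcases hc.eq_or_lt with h3 | h3
    · rw [← h3]; exact Ideal.Quotient.eq_zero_iff_mem.2 h2
    · rw [h.mv c h3, map_zero]
  · intro n
    have := congrArg (Ideal.Quotient.mk J) (h.hx n)
    simpa [map_sum, map_mul, map_add] using this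
  · intro n
    have := congrArg (Ideal.Quotient.mk J) (h.hy n)
    have e2 : (Ideal.Quotient.mk J) 2 = 2 := map_ofNat _ 2
    simpa [map_sum, map_mul, map_add, e2] using this
  · have e1 : (Set.range fun c => Ideal.Quotient.mk J (d c)) ∪ (Set.range fun c => Ideal.Quotient.mk J (m c))
        = (Ideal.Quotient.mkₐ ℚ J) '' (Set.range d ∪ Set.range m) := by
      rw [Set.image_union, ← Set.range_comp, ← Set.range_comp]
      rfl
    rw [e1, ← AlgHom.map_adjoin, h.gen, Algebra.map_top, AlgHom.range_eq_top]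
    exact Ideal.Quotient.mkₐ_surjective ℚ J

theorem lift_SpS {B : Type} [CommRing B] [Algebra ℚ B] (J : Ideal B) (x y : ℕ → B)
    (p q a b : ℕ) {w : B ⧸ J} (hw : w ∈ SpS (fun c => Ideal.Quotient.mk J (x c))
      (fun c => Ideal.Quotient.mk J (y c)) p q a b) :
    ∃ s ∈ SpS x y p q a b, Ideal.Quotient.mk J s = w := by
  unfold SpS at hw
  induction hw using Submodule.span_induction with
  | mem w hw =>
    obtain ⟨lam, mu, h1, h2, h3, h4, rfl⟩ := hw
    refine ⟨(lam.map x).prod * (mu.map y).prod,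
      Submodule.subset_span ⟨lam, mu, h1, h2, h3, h4, rfl⟩, ?_⟩
    rw [map_mul, map_multiset_prod, map_multiset_prod, Multiset.map_map, Multiset.map_map]
    rfl
  | zero => exact ⟨0, Submodule.zero_mem _, map_zero _⟩
  | add w v _ _ hw hv =>
    obtain ⟨s, hs, rfl⟩ := hw
    obtain ⟨t, ht, rfl⟩ := hv
    exact ⟨s + t, Submodule.add_mem _ hs ht, map_add _ _ _⟩
  | smul c w _ hw =>
    obtain ⟨s, hs, rfl⟩ := hw
    exact ⟨c • s, Submodule.smul_mem _ _ hs, rfl⟩

theorem lift_GI {B : Type} [CommRing B] [Algebra ℚ B] (J : Ideal B) (x y : ℕ → B)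
    (a b : ℕ) {w : B ⧸ J} (hw : w ∈ GI (fun c => Ideal.Quotient.mk J (x c))
      (fun c => Ideal.Quotient.mk J (y c)) a b) :
    ∃ s ∈ GI x y a b, Ideal.Quotient.mk J s = w := by
  have h1 : GI (fun c => Ideal.Quotient.mk J (x c)) (fun c => Ideal.Quotient.mk J (y c)) a b
      ≤ Ideal.map (Ideal.Quotient.mk J) (GI x y a b) := by
    unfold GI
    rw [Ideal.span_le]
    rintro w (⟨l, hl, rfl⟩ | ⟨l, hl, rfl⟩)
    · exact Ideal.mem_map_of_mem _ (x_mem_GI hl)
    · exact Ideal.mem_map_of_mem _ (y_mem_GI hl)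
  exact (Ideal.mem_map_iff_of_surjective _ Ideal.Quotient.mk_surjective).1 (h1 hw)

theorem main : ∀ (i : ℕ) (B : Type) [CommRing B] [Algebra ℚ B] (d m x y : ℕ → B),
    Sys i d m x y → ∀ (a b : ℕ) (w : B), ∃ s ∈ SpS x y i i a b, ∃ g ∈ GI x y a b, w = s + g := by
  intro i
  induction i with
  | zero =>
    intro B _ _ d m x y hS a b w
    have h1 : w ∈ Algebra.adjoin ℚ (Set.range d ∪ Set.range m) := by
      rw [hS.gen]; exact Algebra.mem_top
    have h2 : Algebra.adjoin ℚ (Set.range d ∪ Set.range m) ≤ ⊥ := by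
      apply Algebra.adjoin_le
      rintro z (⟨c, rfl⟩ | ⟨c, rfl⟩)
      · rcases Nat.eq_zero_or_pos c with h | h
        · subst h; rw [hS.d0]; exact one_mem _
        · rw [hS.dv c h]; exact zero_mem _
      · rw [hS.mv c (Nat.zero_le _)]; exact zero_mem _
    obtain ⟨r, rfl⟩ := Algebra.mem_bot.1 (h2 h1)
    refine ⟨algebraMap ℚ B r, ?_, 0, Ideal.zero_mem _, by rw [add_zero]⟩
    rw [Algebra.algebraMap_eq_smul_one]
    apply Submodule.smul_mem
    apply Submodule.subset_span
    refine ⟨0, 0, rfl, rfl, ?_, ?_, ?_⟩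
    · intro t ht; exact absurd ht (Multiset.notMem_zero t)
    · intro t ht; exact absurd ht (Multiset.notMem_zero t)
    · simp
  | succ k ih =>
    intro B _ _ d m x y hS
    set J : Ideal B := Ideal.span {d (k + 1), m k} with hJ
    have hJd : d (k + 1) ∈ J := Ideal.subset_span (Set.mem_insert _ _)
    have hJm : m k ∈ J := Ideal.subset_span (Set.mem_insert_of_mem _ rfl)
    -- the statement for `k` modulo `J`
    have pull : ∀ (a b : ℕ) (w : B), ∃ s ∈ SpS x y k k a b, ∃ j ∈ J, ∃ g ∈ GI x y a b,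
        w = s + j + g := by
      intro a b w
      obtain ⟨s', hs', g', hg', hw⟩ := ih (B ⧸ J) _ _ _ _ (hS.quot J hJd hJm) a b
        (Ideal.Quotient.mk J w)
      obtain ⟨s, hs, rfl⟩ := lift_SpS J x y k k a b hs'
      obtain ⟨g, hg, rfl⟩ := lift_GI J x y a b hg'
      refine ⟨s, hs, w - s - g, ?_, g, hg, by ring⟩
      rw [← Ideal.Quotient.eq_zero_iff_mem, map_sub, map_sub, hw]
      ring
    -- the relations
    have relx : ∀ a b : ℕ, (m k - a * d (k + 1)) * x a ∈ GI x y (a + 1) b := by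
      intro a b
      exact top_eq (fun c hc => hS.dv c hc) (fun c hc => hS.mv c hc) hS.hx _ a
        (fun l hl => x_mem_GI hl)
    have rely : ∀ a b : ℕ, (-(2 * (d (k + 1) * ((k : B) + 1)) + m k) - b * d (k + 1)) * y b
        ∈ GI x y a (b + 1) := by
      intro a b
      refine top_eq (u := fun c => -(2 * (d (c + 1) * ((c : B) + 1)) + m c))
        (fun c hc => hS.dv c hc) (fun c hc => ?_) hS.hy _ b (fun l hl => y_mem_GI hl)
      show -(2 * (d (c + 1) * ((c : B) + 1)) + m c) = 0
      rw [hS.dv (c + 1) (by omega), hS.mv c hc]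
      ring
    -- second step
    have step2 : ∀ (a b : ℕ) (w : B), ∃ s ∈ SpS x y k (k + 1) (a + 1) b,
        ∃ g ∈ Ideal.span {m k - a * d (k + 1)} ⊔ GI x y (a + 1) b, w = s + g := by
      intro a b
      induction b with
      | zero =>
        intro w
        refine ⟨0, Submodule.zero_mem _, w, ?_, by rw [zero_add]⟩
        apply Ideal.mem_sup_right
        have : y 0 ∈ GI x y (a + 1) 0 := y_mem_GI le_rfl
        rw [hS.y0] at this
        rw [← mul_one w]
        exact Ideal.mul_mem_left _ _ this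
      | succ b ihb =>
        intro w
        set K : Ideal B := Ideal.span {m k - a * d (k + 1)} ⊔ GI x y (a + 1) (b + 1) with hK
        have he : m k - a * d (k + 1) ∈ K := Ideal.mem_sup_left (Ideal.subset_span rfl)
        have hKd : d (k + 1) * y b ∈ K := by
          have h1 : (-(2 * (d (k + 1) * ((k : B) + 1)) + m k) - b * d (k + 1)) * y b ∈ K :=
            Ideal.mem_sup_right (rely (a + 1) b)
          have h2 : (m k - a * d (k + 1)) * y b ∈ K := Ideal.mul_mem_right _ _ he
          have h3 := K.add_mem h1 h2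
          have h4 : ((a : ℚ) + b + 2 * (k + 1)) ≠ 0 := by positivity
          have h5 : d (k + 1) * y b = algebraMap ℚ B (-((a : ℚ) + b + 2 * (k + 1))⁻¹)
              * ((-(2 * (d (k + 1) * ((k : B) + 1)) + m k) - b * d (k + 1)) * y b
                + (m k - a * d (k + 1)) * y b) := by
            have h6 : (-(2 * (d (k + 1) * ((k : B) + 1)) + m k) - b * d (k + 1)) * y b
                + (m k - a * d (k + 1)) * y b
                = algebraMap ℚ B (-((a : ℚ) + b + 2 * (k + 1))) * (d (k + 1) * y b) := by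
              simp only [map_neg, map_add, map_mul, map_natCast, map_ofNat, map_one]
              ring
            rw [h6, ← mul_assoc, ← map_mul, neg_mul_neg, inv_mul_cancel₀ h4, map_one, one_mul]
          rw [h5]
          exact K.mul_mem_left _ h3
        have hKm : m k * y b ∈ K := by
          have h2 : (m k - a * d (k + 1)) * y b ∈ K := Ideal.mul_mem_right _ _ he
          have : m k * y b = (m k - a * d (k + 1)) * y b + a * (d (k + 1) * y b) := by ring
          rw [this]
          exact K.add_mem h2 (K.mul_mem_left _ hKd)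
        have hKJ : ∀ j ∈ J, j * y b ∈ K := by
          intro j hj
          obtain ⟨α, β, rfl⟩ := Ideal.mem_span_pair.1 hj
          have : (α * d (k + 1) + β * m k) * y b = α * (d (k + 1) * y b) + β * (m k * y b) := by ring
          rw [this]
          exact K.add_mem (K.mul_mem_left _ hKd) (K.mul_mem_left _ hKm)
        obtain ⟨s, hs, g, hg, rfl⟩ := ihb w
        have hle : Ideal.span {m k - a * d (k + 1)} ⊔ GI x y (a + 1) b
            ≤ K ⊔ Ideal.span {y b} := by
          apply sup_le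
          · exact le_sup_left.trans le_sup_left
          · exact (GI_le_b x y (a + 1) b).trans (sup_le_sup_right le_sup_right _)
        obtain ⟨g1, hg1, g2, hg2, rfl⟩ := Submodule.mem_sup.1 (hle hg)
        obtain ⟨r, rfl⟩ := Ideal.mem_span_singleton'.1 hg2
        obtain ⟨s1, hs1, j, hj, g3, hg3, rfl⟩ := pull (a + 1) (b + 1) r
        refine ⟨s + y b * s1, Submodule.add_mem _ (SpS_mono le_rfl (Nat.le_succ _) hs)
          (y_mul_SpS (Nat.lt_succ_self b) hs1), g1 + j * y b + g3 * y b, ?_, by ring⟩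
        exact K.add_mem (K.add_mem hg1 (hKJ j hj))
          (K.mul_mem_right _ (Ideal.mem_sup_right hg3))
    -- third step
    intro a b
    induction a with
    | zero =>
      intro w
      refine ⟨0, Submodule.zero_mem _, w, ?_, by rw [zero_add]⟩
      have : x 0 ∈ GI x y 0 b := x_mem_GI le_rfl
      rw [hS.x0] at this
      rw [← mul_one w]
      exact Ideal.mul_mem_left _ _ this
    | succ a iha =>
      intro w
      obtain ⟨s, hs, g, hg, rfl⟩ := iha w
      obtain ⟨g1, hg1, g2, hg2, rfl⟩ := Submodule.mem_sup.1 (GI_le_a x y a b hg)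
      obtain ⟨r, rfl⟩ := Ideal.mem_span_singleton'.1 hg2
      obtain ⟨s1, hs1, g3, hg3, rfl⟩ := step2 a b r
      obtain ⟨g4, hg4, g5, hg5, rfl⟩ := Submodule.mem_sup.1 hg3
      obtain ⟨t, rfl⟩ := Ideal.mem_span_singleton'.1 hg4
      refine ⟨s + x a * s1, Submodule.add_mem _ (SpS_mono (Nat.le_succ _) le_rfl hs)
          (x_mul_SpS (Nat.lt_succ_self a) hs1),
          g1 + (t * ((m k - a * d (k + 1)) * x a) + g5 * x a), ?_, by ring⟩
      exact Ideal.add_mem _ hg1 (Ideal.add_mem _ (Ideal.mul_mem_left _ _ (relx a b))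
        (Ideal.mul_mem_right _ _ hg5))

theorem t_SP : S_SP := by
  intro i B _ _ D M X Y hD0 hX0 hY0 hD hM hX hY hgen a b
  have hS : Sys i (fun c => PowerSeries.coeff c D) (fun c => PowerSeries.coeff c M)
      (fun c => PowerSeries.coeff c X) (fun c => PowerSeries.coeff c Y) := by
    refine ⟨hD0, hX0, hY0, hD, hM, ?_, ?_, hgen⟩
    · intro n
      have h1 := congrArg (PowerSeries.coeff n) hX
      rw [PowerSeries.coeff_mul, PowerSeries.coeff_mul] at h1
      simpa only [PowerSeries.coeff_derivative] using h1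
    · intro n
      have h1 := congrArg (PowerSeries.coeff n) hY
      rw [PowerSeries.coeff_mul, PowerSeries.coeff_mul] at h1
      have h2 : ∀ p : ℕ, PowerSeries.coeff p (-(2 * PowerSeries.derivative B D + M))
          = -(2 * (PowerSeries.coeff (p + 1) D * ((p : B) + 1)) + PowerSeries.coeff p M) := by
        intro p
        rw [map_neg, map_add, two_mul, map_add, PowerSeries.coeff_derivative, two_mul]
      simp only [PowerSeries.coeff_derivative, h2] at h1
      exact h1
  rw [eq_top_iff]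
  intro w _
  obtain ⟨s, hs, g, hg, rfl⟩ := main i B _ _ _ _ hS a b w
  exact Submodule.add_mem_sup hs hg

end Pool.Agent.W202.RT.SP
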